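import Pool.Agent.Y517.NT.Pr
import Pool.Agent.Y484.SY.Gen
import Pool.Agent.Y501.SY.PairL

/-!
# NT2-PAIR: smooth one-forms on a closed manifold are finite sums of forms `f dg`

The computation of the differentials of the coordinate functions is that of
`Pool.Agent.Y655.NT.Span`.
-/

set_option autoImplicit false

open Set Filter Topology MeasureTheory
open scoped Manifold ContDiff

noncomputable section

namespace Pool.Agent.Y306.NT

open Pool.Agent.Y501.SY

section lin

variable {d : ℕ}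

/-- a form in one variable as a linear form -/
def un (β : (E d) [⋀^Fin 1]→L[ℝ] ℝ) : E d →L[ℝ] ℝ :=
  (ContinuousAlternatingMap.ofSubsingletonLIE (𝕜 := ℝ) (E := E d) (F := ℝ) (0 : Fin 1)).symm β

theorem un_apply (β : (E d) [⋀^Fin 1]→L[ℝ] ℝ) (v : Fin 1 → E d) : β v = un β (v 0) := by
  have h : (ContinuousAlternatingMap.ofSubsingletonLIE (𝕜 := ℝ) (E := E d) (F := ℝ)
      (0 : Fin 1)) (un β) = β := LinearIsometryEquiv.apply_symm_apply _ β
  conv_lhs => rw [← h]
  rfl

theorem lin_sum (a : E d →L[ℝ] ℝ) (u : E d) :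
    a u = ∑ i, u i * a (EuclideanSpace.single i (1 : ℝ)) := by
  have h : u = ∑ i, u i • EuclideanSpace.single i (1 : ℝ) := by
    have h1 := (EuclideanSpace.basisFun (Fin d) ℝ).sum_repr u
    simpa using h1.symm
  conv_lhs => rw [h]
  rw [map_sum]
  exact Finset.sum_congr rfl fun i _ => by rw [map_smul, smul_eq_mul]

end lin

variable {d : ℕ} {X : Type} [TopologicalSpace X] [ChartedSpace (E d) X]

/-- the differential of a chart -/
def dc (z y : X) : E d →L[ℝ] E d := mfderiv (𝓡 d) (𝓡 d) (chartAt (E d) z) y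

/-- the differential of a function -/
def de (g : X → ℝ) (y : X) : E d →L[ℝ] ℝ := dd (d := d) g y

/-- the value of a form -/
def av {k : ℕ} (α : Form d X k) (x : X) : (E d) [⋀^Fin k]→L[ℝ] ℝ := α x

/-- the coordinate functions near a point -/
theorem local_coord [IsManifold (𝓡 d) ∞ X] [T2Space X] (z : X) : ∃ g : Fin d → X → ℝ,
    (∀ j, SmoothFun (d := d) (g j)) ∧ ∀ᶠ y in 𝓝 z, y ∈ (chartAt (E d) z).source ∧
      ∀ (v : E d) (j : Fin d), de (g j) y v = dc z y v j := by
  let c := chartAt (E d) z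
  have hz : z ∈ c.source := mem_chart_source (E d) z
  have hcd : c.MDifferentiable (𝓡 d) (𝓡 d) := mdifferentiable_chart (I := 𝓡 d) z
  obtain ⟨b⟩ : Nonempty (SmoothBumpFunction (𝓡 d) z) := inferInstance
  let F : X → E d := fun x => b x • c x
  have hF : ContMDiff (𝓡 d) 𝓘(ℝ, E d) ∞ F := b.contMDiff_smul (contMDiffOn_chart (I := 𝓡 d))
  let g : Fin d → X → ℝ := fun j x => F x j
  have hg : ∀ j, SmoothFun (d := d) (g j) := by
    intro j
    exact ((EuclideanSpace.proj (𝕜 := ℝ) j : E d →L[ℝ] ℝ).contDiff.contMDiff).comp hF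
  refine ⟨g, hg, ?_⟩
  filter_upwards [c.open_source.mem_nhds hz, b.eventuallyEq_one.eventually_nhds] with y hy hby
  refine ⟨hy, fun v j => ?_⟩
  have hFc : F =ᶠ[𝓝 y] c := by
    filter_upwards [hby] with x hx
    change b x • c x = c x
    rw [hx]
    exact one_smul ℝ (c x)
  have hcdy : MDifferentiableAt (𝓡 d) 𝓘(ℝ, E d) c y := hcd.mdifferentiableAt hy
  have e1 : g j =ᶠ[𝓝 y] (EuclideanSpace.proj (𝕜 := ℝ) j : E d →L[ℝ] ℝ) ∘ c := by
    filter_upwards [hFc] with x hx
    change F x j = c x j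
    rw [hx]
  unfold de dd
  rw [e1.mfderiv_eq, mfderiv_comp y
    ((EuclideanSpace.proj (𝕜 := ℝ) j : E d →L[ℝ] ℝ).contDiff.contMDiff.mdifferentiableAt
      (n := 1) one_ne_zero) hcdy,
    mfderiv_eq_fderiv, ContinuousLinearMap.fderiv]
  rfl

/-- a form in coordinates -/
theorem form_eq [IsManifold (𝓡 d) ∞ X] (α : Form d X 1) (z : X) {x : X}
    (hx : x ∈ (chartAt (E d) z).source) (v : Fin 1 → E d) :
    av α x v = pb (chartAt (E d) z).symm α (chartAt (E d) z x) (fun i => dc z x (v i)) := by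
  have hcd : (chartAt (E d) z).MDifferentiable (𝓡 d) (𝓡 d) := mdifferentiable_chart (I := 𝓡 d) z
  have h1 := hcd.symm_comp_deriv hx
  let A : X → (E d) [⋀^Fin 1]→L[ℝ] ℝ := α
  have hA : A ((chartAt (E d) z).symm (chartAt (E d) z x)) = A x :=
    congrArg A ((chartAt (E d) z).left_inv hx)
  have h2 : ∀ w : E d, (mfderiv (𝓡 d) (𝓡 d) (chartAt (E d) z).symm (chartAt (E d) z x) :
      E d →L[ℝ] E d) ((mfderiv (𝓡 d) (𝓡 d) (chartAt (E d) z) x : E d →L[ℝ] E d) w) = w :=
    fun w => DFunLike.congr_fun h1 w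
  change A x v = A ((chartAt (E d) z).symm (chartAt (E d) z x)) (fun i =>
    (mfderiv (𝓡 d) (𝓡 d) (chartAt (E d) z).symm (chartAt (E d) z x) :
      E d →L[ℝ] E d) ((mfderiv (𝓡 d) (𝓡 d) (chartAt (E d) z) x : E d →L[ℝ] E d) (v i)))
  rw [hA]
  congr 1
  funext i
  exact (h2 (v i)).symm

/-- the coefficients of a form in coordinates, cut off -/
def cf (α : Form d X 1) (z : X) (ρ : X → ℝ) (i : Fin d) (x : X) : ℝ :=
  ρ x * un (pb (chartAt (E d) z).symm α (chartAt (E d) z x)) (EuclideanSpace.single i (1 : ℝ))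

theorem cf_smooth [IsManifold (𝓡 d) ∞ X] {α : Form d X 1} (hα : IsSmooth α) (z : X) {ρ : X → ℝ}
    (hρ : SmoothFun (d := d) ρ) (hs : tsupport ρ ⊆ (chartAt (E d) z).source) (i : Fin d) :
    SmoothFun (d := d) (cf α z ρ i) := by
  refine contMDiff_of_tsupport fun x hx => ?_
  have hx1 : x ∈ (chartAt (E d) z).source := hs (tsupport_mul_subset_left hx)
  have h1 : ContDiffOn ℝ ∞ (pb (chartAt (E d) z).symm α) (chartAt (E d) z).target :=
    hα _ _ (chartAt (E d) z).open_target (contMDiffOn_chart_symm (I := 𝓡 d))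
  have h2 : ContDiffOn ℝ ∞ (fun p => un (pb (chartAt (E d) z).symm α p)
      (EuclideanSpace.single i (1 : ℝ))) (chartAt (E d) z).target := by
    refine ContDiffOn.clm_apply ?_ contDiffOn_const
    exact (ContinuousAlternatingMap.ofSubsingletonLIE (𝕜 := ℝ) (E := E d) (F := ℝ)
      (0 : Fin 1)).symm.contDiff.comp_contDiffOn h1
  have h3 : ContMDiffAt (𝓡 d) 𝓘(ℝ, ℝ) ∞ (fun p => un (pb (chartAt (E d) z).symm α p)
      (EuclideanSpace.single i (1 : ℝ))) (chartAt (E d) z x) :=
    (h2.contDiffAt ((chartAt (E d) z).open_target.mem_nhds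
      ((chartAt (E d) z).map_source hx1))).contMDiffAt
  have h4 : ContMDiffAt (𝓡 d) (𝓡 d) ∞ (chartAt (E d) z) x :=
    (contMDiffOn_chart (I := 𝓡 d)).contMDiffAt ((chartAt (E d) z).open_source.mem_nhds hx1)
  have h5 : ContMDiffAt (𝓡 d) 𝓘(ℝ, ℝ) ∞ ((fun p => un (pb (chartAt (E d) z).symm α p)
      (EuclideanSpace.single i (1 : ℝ))) ∘ (chartAt (E d) z)) x := ContMDiffAt.comp x h3 h4
  exact (hρ x).mul h5

/-- smooth one-forms are finite sums of forms `f dg` -/
theorem exists_fdg [IsManifold (𝓡 d) ∞ X] [CompactSpace X] [T2Space X] {α : Form d X 1}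
    (hα : IsSmooth α) : ∃ (K : ℕ) (f g : Fin K → Fin d → X → ℝ),
      (∀ k i, SmoothFun (d := d) (f k i)) ∧ (∀ k i, SmoothFun (d := d) (g k i)) ∧
      ∀ (x : X) (v : Fin 1 → E d), av α x v = ∑ k, ∑ i, f k i x * de (g k i) x (v 0) := by
  choose g hg hgl using fun z : X => local_coord (d := d) z
  obtain ⟨t, ht⟩ := CompactSpace.elim_nhds_subcover (fun z => interior {y |
    y ∈ (chartAt (E d) z).source ∧ ∀ (v : E d) (j : Fin d), de (g z j) y v = dc z y v j})
    (fun z => interior_mem_nhds.2 (hgl z))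
  set σ : Fin t.card → X := fun j => (t.equivFin.symm j : X) with hσ
  obtain ⟨χ, hχ⟩ := SmoothPartitionOfUnity.exists_isSubordinate (𝓡 d) (isClosed_univ (X := X))
    (fun j : Fin t.card => interior {y |
      y ∈ (chartAt (E d) (σ j)).source ∧ ∀ (v : E d) (i : Fin d),
        de (g (σ j) i) y v = dc (σ j) y v i})
    (fun j => isOpen_interior) (by
      intro x _
      have hx : x ∈ ⋃ z ∈ t, interior {y |
          y ∈ (chartAt (E d) z).source ∧ ∀ (v : E d) (j : Fin d), de (g z j) y v = dc z y v j} := by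
        rw [ht]
        trivial
      rw [mem_iUnion₂] at hx
      obtain ⟨x', hx', hxx⟩ := hx
      refine mem_iUnion.2 ⟨t.equivFin ⟨x', hx'⟩, ?_⟩
      simp only [hσ, Equiv.symm_apply_apply]
      exact hxx)
  have hsub : ∀ j, tsupport (χ j) ⊆ (chartAt (E d) (σ j)).source := fun j x hx =>
    (interior_subset (hχ j hx)).1
  refine ⟨t.card, fun k i => cf α (σ k) (χ k) i, fun k i => g (σ k) i,
    fun k i => cf_smooth hα (σ k) (χ k).contMDiff (hsub k) i, fun k i => hg (σ k) i, ?_⟩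
  intro x v
  have h1 : ∀ k, ∑ i, cf α (σ k) (χ k) i x * de (g (σ k) i) x (v 0) = χ k x * av α x v := by
    intro k
    rcases eq_or_ne (χ k x) 0 with h0 | h0
    · unfold cf
      simp [h0]
    · have hx : x ∈ interior {y |
          y ∈ (chartAt (E d) (σ k)).source ∧ ∀ (v : E d) (i : Fin d),
            de (g (σ k) i) y v = dc (σ k) y v i} :=
        hχ k (subset_tsupport _ h0)
      obtain ⟨hxs, hxd⟩ := interior_subset hx
      rw [form_eq α (σ k) hxs v, un_apply, lin_sum, Finset.mul_sum]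
      refine Finset.sum_congr rfl fun i _ => ?_
      rw [hxd]
      unfold cf
      ring
  rw [Finset.sum_congr rfl fun k _ => h1 k, ← Finset.sum_mul]
  have h2 := χ.sum_eq_one (mem_univ x)
  rw [finsum_eq_sum_of_fintype] at h2
  rw [h2, one_mul]

theorem t_PAIR : Pool.Agent.Y517.NT.S_PAIR := by
  intro d X _ _ _ _ _ α η hα hη
  obtain ⟨K, f, g, hf, hg, hfg⟩ := exists_fdg hα
  have hP : Pair (∑ p : Fin K × Fin d, fdg (d := d) (f p.1 p.2) (g p.1 p.2))
      (∑ p : Fin K × Fin d, dfdg (d := d) (f p.1 p.2) (g p.1 p.2)) :=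
    Pair.sum Finset.univ fun p _ => Pair.gen _ _ (hf _ _) (hg _ _)
  have hαe : (∑ p : Fin K × Fin d, fdg (d := d) (f p.1 p.2) (g p.1 p.2)) = α := by
    funext x
    refine ContinuousAlternatingMap.ext fun v => ?_
    have h1 := hfg x v
    rw [Finset.sum_apply]
    have h2 : (∑ p : Fin K × Fin d, fdg (d := d) (f p.1 p.2) (g p.1 p.2) x) v =
        ∑ p : Fin K × Fin d, (fdg (d := d) (f p.1 p.2) (g p.1 p.2) x) v := by
      rw [ContinuousAlternatingMap.sum_apply]
    rw [h2, Fintype.sum_prod_type]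
    exact h1.symm
  rw [hαe] at hP
  obtain ⟨-, -, hD, -⟩ := Pair.props Pool.Agent.Y484.SY.t_GEN hP
  have hηe : η = ∑ p : Fin K × Fin d, dfdg (d := d) (f p.1 p.2) (g p.1 p.2) := by
    set η' := ∑ p : Fin K × Fin d, dfdg (d := d) (f p.1 p.2) (g p.1 p.2)
    have key : ∀ (z y : X), (∃ p ∈ (chartAt (E d) z).target, (chartAt (E d) z).symm p = y) →
        η y = η' y := by
      rintro z _ ⟨p, hp, rfl⟩
      have h1 := hη _ _ (chartAt (E d) z).open_target (contMDiffOn_chart_symm (I := 𝓡 d)) p hp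
      have h2 := hD _ _ (chartAt (E d) z).open_target (contMDiffOn_chart_symm (I := 𝓡 d)) p hp
      have h3 : pb (chartAt (E d) z).symm η p = pb (chartAt (E d) z).symm η' p := h1.symm.trans h2
      have hcd : (chartAt (E d) z).symm.MDifferentiable (𝓡 d) (𝓡 d) :=
        (mdifferentiable_chart (I := 𝓡 d) z).symm
      have hsurj := hcd.mfderiv_surjective (x := p) hp
      refine ContinuousAlternatingMap.ext fun v => ?_
      choose w hw using fun i => hsurj (v i)
      have h4 := DFunLike.congr_fun h3 w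
      have h5 : (fun i => mfderiv (𝓡 d) (𝓡 d) (chartAt (E d) z).symm p (w i)) = v := funext hw
      rw [← h5]
      exact h4
    funext x
    exact key x x ⟨chartAt (E d) x x, (chartAt (E d) x).map_source (mem_chart_source (E d) x),
      (chartAt (E d) x).left_inv (mem_chart_source (E d) x)⟩
  rw [hηe]
  exact hP

end Pool.Agent.Y306.NT
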